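import Pool.Agent.H231R3.Sub.Immune

/-!
# Closure of `NTIME(Pol t)` under complementation for time bounds not polynomially above `id`

The definitions used in the statement are in `Pool/Agent/H646R2/NT/Defs.lean` (multitape Turing
machines and the classes `NTIME s t`, `DTIME s t`, `coNTIME s t` over the alphabet with `s + 1`
letters) and in `Pool/Agent/H231R3/Sub/Trie.lean` (`PrefixDet s`, the class of the languages for
which membership of a word only depends on its prefix of some fixed length).
-/

set_option autoImplicit false

open Pool.Agent.H646R2.NT Pool.Agent.H231R3.Sub Filter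

namespace Pool.Agent.Results.MP_fa4772_lc.BelowIdentity

/-- Take any alphabet.

(1) If `n ≤ p (t n)` for all `n` and some polynomial `p`, then the closure question for `t` is the
one for `max n (t n)`.

(2) If there is no such polynomial, then `NTIME(Pol t) ∩ coNTIME(Pol t)` consists exactly of the
languages which are determined by a prefix of bounded length; the class `NTIME(Pol t)` is closed
under complementation iff all its languages are of this kind, and in this case it is equal to
`DTIME(Pol t)`; this is the case if `t` is below all powers `n ^ ε`, and only in this case provided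
that the sets `{w | |w| ≤ p (t |w|)}` are in `NTIME(Pol t)`; and for every infinite set `J` of
lengths `n` with `n ≤ p (t n)` for which `{w | |w| ∈ J}` is in `DTIME(Pol id)`, the latter set is
a set in `DTIME(Pol t)` whose complement is not in `NTIME(Pol t)`. For example, this applies to
the even lengths.

(3) There is a computable time bound as in (2) which is equal to `n` for infinitely many `n`, and
equal to `0` for the others, for which `NTIME(Pol t)` is closed under complementation. -/
theorem result (s : ℕ) :
    (∀ t : ℕ → ℕ, (∃ p : Polynomial ℕ, ∀ n, n ≤ p.eval (t n)) →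
      (coNTIME s t = NTIME s t ↔
        coNTIME s (fun n => max n (t n)) = NTIME s (fun n => max n (t n)))) ∧
    (∀ t : ℕ → ℕ, (∀ p : Polynomial ℕ, ∃ n, p.eval (t n) < n) →
      NTIME s t ∩ coNTIME s t = PrefixDet s ∧
      (coNTIME s t = NTIME s t ↔ NTIME s t = PrefixDet s) ∧
      (coNTIME s t = NTIME s t → NTIME s t = DTIME s t) ∧
      ((∀ p : Polynomial ℕ, ∀ᶠ n in atTop, p.eval (t n) < n) → coNTIME s t = NTIME s t) ∧
      ((∀ p : Polynomial ℕ, {w : W s | w.length ≤ p.eval (t w.length)} ∈ NTIME s t) →
        (coNTIME s t = NTIME s t ↔ ∀ p : Polynomial ℕ, ∀ᶠ n in atTop, p.eval (t n) < n)) ∧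
      (∀ (p : Polynomial ℕ) (J : Set ℕ), J.Infinite → (∀ n ∈ J, n ≤ p.eval (t n)) →
        {w : W s | w.length ∈ J} ∈ DTIME s id →
          {w : W s | w.length ∈ J} ∈ DTIME s t ∧ {w : W s | w.length ∈ J}ᶜ ∉ NTIME s t) ∧
      ((∃ p : Polynomial ℕ, ∀ n, Even n → n ≤ p.eval (t n)) →
        {w : W s | Even w.length} ∈ DTIME s t ∧ {w : W s | Even w.length}ᶜ ∉ NTIME s t)) ∧
    (∃ t : ℕ → ℕ, Computable t ∧ (∀ n, t n = 0 ∨ t n = n) ∧ {n | t n = n}.Infinite ∧
      (∀ p : Polynomial ℕ, ∃ n, p.eval (t n) < n) ∧ coNTIME s t = NTIME s t) := by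
  refine ⟨final_above s, fun t ht => ?_, immune s⟩
  obtain ⟨h1, h2, h3, h4, h5, h6⟩ := final_below s t ht
  exact ⟨h1, h2, h3, h4, h5, h6, final_even s t ht⟩

end Pool.Agent.Results.MP_fa4772_lc.BelowIdentity
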